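import Mathlib
import Pool.Agent.Helper600R2.CM.CoreD2
import Pool.Agent.Helper600R2.CM.NumL
import Pool.Agent.Helper600R2.CM.P1
import Pool.Agent.Helper600R2.CM.DTr

/-!
Lifting of the degree of sum-of-squares refutations (Positivstellensatz calculus) to refutations
in which arbitrary formulas of size `N ^ (2 - ε)` take the place of monomials.
-/

namespace Pool.Agent.Results.MP_51bb46_lc.FormulaSquares

open Finset
open Pool.Agent.Helper600R2.CM.DTr (DT)

/-- Propositional formulas over `N` variables, of unbounded depth. -/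
inductive Fml (N : ℕ) : Type
  | const : Bool → Fml N
  | var : Fin N → Fml N
  | neg : Fml N → Fml N
  | and : Fml N → Fml N → Fml N
  | or : Fml N → Fml N → Fml N

/-- Truth value of a formula. -/
def Fml.eval {N : ℕ} (z : Fin N → Bool) : Fml N → Bool
  | .const b => b
  | .var v => z v
  | .neg f => !(f.eval z)
  | .and f g => f.eval z && g.eval z
  | .or f g => f.eval z || g.eval z

/-- Size of a formula: the number of occurrences of variables. -/
def Fml.size {N : ℕ} : Fml N → ℕ
  | .const _ => 0
  | .var _ => 1
  | .neg f => f.size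
  | .and f g => f.size + g.size
  | .or f g => f.size + g.size

/-- A clause over `n` variables: a finite set of literals; the literal `(x, s)` says that the
variable `x` has the value `s`. -/
abbrev Clause (n : ℕ) := Finset (Fin n × Bool)

/-- The monomial of the variables in `S`, as a function on `{0,1}^n` with values in `K`. -/
def mono (K : Type) [Field K] {n : ℕ} (S : Finset (Fin n)) (x : Fin n → Bool) : K :=
  if ∀ i ∈ S, x i = true then 1 else 0

/-- The polynomials over `K` in `n` Boolean variables of degree at most `d` (functions on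
`{0,1}^n`, that is, polynomials modulo `x i ^ 2 = x i`). -/
def Deg (K : Type) [Field K] (n d : ℕ) : Submodule K ((Fin n → Bool) → K) :=
  Submodule.span K {f | ∃ S : Finset (Fin n), S.card ≤ d ∧ f = mono K S}

/-- The polynomial which translates a clause: `0` where the clause is true, `1` where it is
false. -/
def falsity (K : Type) [Field K] {n : ℕ} (C : Clause n) (x : Fin n → Bool) : K :=
  if ∀ l ∈ C, x l.1 ≠ l.2 then 1 else 0

/-- The polynomials derivable in polynomial calculus over `K` from the translations of the
clauses in `F` in degree at most `D`: linear combinations are free, a polynomial may be multiplied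
by a variable if its degree is less than `D`. -/
inductive PC {n : ℕ} (K : Type) [Field K] (F : Finset (Clause n)) (D : ℕ) :
    ((Fin n → Bool) → K) → Prop
  | clause {C : Clause n} : C ∈ F → PC K F D (falsity K C)
  | zero : PC K F D 0
  | add {f g : (Fin n → Bool) → K} : PC K F D f → PC K F D g → PC K F D (f + g)
  | smul (c : K) {f : (Fin n → Bool) → K} : PC K F D f → PC K F D (c • f)
  | mul (i : Fin n) {f : (Fin n → Bool) → K} {d : ℕ} : PC K F D f → f ∈ Deg K n d →
      d + 1 ≤ D → PC K F D (mono K {i} * f)

/-- `G i` are Boolean functions of the `N` variables which are computed by decision trees of depth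
at most `b` over pairwise disjoint sets of variables, and which together attain all values. -/
structure IsGadget {n N : ℕ} (G : Fin n → (Fin N → Bool) → Bool) (b : ℕ) : Prop where
  trees : ∃ block : Fin n → Finset (Fin N), (∀ i j, i ≠ j → Disjoint (block i) (block j)) ∧
    ∀ i, DT (block i) b (G i)
  surjective : ∀ x : Fin n → Bool, ∃ z, ∀ i, G i z = x i

/-- The truth value of a formula as a function with values in `K`. -/
def ind (K : Type) [Field K] {N : ℕ} (φ : Fml N) (z : Fin N → Bool) : K :=
  if φ.eval z = true then 1 else 0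

/-- `F` has a refutation of degree `W` in the Positivstellensatz calculus: for some polynomials `q`
of degree at most `W / 2`, the polynomial `1 + ∑ q ^ 2` is derivable from `F` in polynomial calculus
over the reals in degree at most `W`. -/
def SquaresRef {n : ℕ} (F : Finset (Clause n)) (W : ℕ) : Prop :=
  ∃ L : List ((Fin n → Bool) → ℝ), (∀ q ∈ L, q ∈ Deg ℝ n (W / 2)) ∧
    PC ℝ F W (1 + (L.map fun q => q * q).sum)

/-- A refutation of the composition `F ∘ G` of the CNF `F` with the functions `G` in the
Positivstellensatz calculus with formulas in place of monomials.  All lines are real linear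
combinations of the formulas in the finite set `fmls`, whose size is at most `s`.  Every line is
a linear combination of products of a formula in `fmls` with an earlier line, or with the
composition with `G` of the translation of a clause in `F`.  For some linear combinations `q` of
formulas in `fmls`, the function `1 + ∑ q ^ 2` is such a combination, too.  For `S = 0` (no
lines) this is a static sum-of-squares refutation. -/
structure Refutation {n N : ℕ} (F : Finset (Clause n))
    (G : Fin n → (Fin N → Bool) → Bool) (s S : ℕ) where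
  fmls : Finset (Fml N)
  size_le : ∀ φ ∈ fmls, φ.size ≤ s
  line : Fin S → ((Fin N → Bool) → ℝ)
  line_mem : ∀ j, line j ∈ Submodule.span ℝ {f | ∃ φ ∈ fmls, f = ind ℝ φ}
  sound : ∀ j, line j ∈ Submodule.span ℝ
    {f | ∃ φ ∈ fmls, (∃ i < j, f = ind ℝ φ * line i) ∨
      ∃ C ∈ F, f = ind ℝ φ * fun z => falsity ℝ C (fun i => G i z)}
  final : ∃ L : List ((Fin N → Bool) → ℝ),
    (∀ q ∈ L, q ∈ Submodule.span ℝ {f | ∃ φ ∈ fmls, f = ind ℝ φ}) ∧
    1 + (L.map fun q => q * q).sum ∈ Submodule.span ℝ
      {f | ∃ φ ∈ fmls, (∃ i, f = ind ℝ φ * line i) ∨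
        ∃ C ∈ F, f = ind ℝ φ * fun z => falsity ℝ C (fun i => G i z)}

open H542 (T evs leavess comb evs_comb leavess_comb)
open Pool.Agent.Helper600R2 Pool.Agent.Helper600R2.CM Pool.Agent.H564R2.QF
open Pool.Agent.Helper600R2.CM.DW Pool.Agent.Helper600R2.CM.DW2

/-- partial inverse of an injection -/
noncomputable def pinv {A : Type} {N : ℕ} (e : A ↪ Fin N) (v : Fin N) : Option A := by
  classical
  exact if h : ∃ w, e w = v then some h.choose else none

theorem pinv_apply {A : Type} {N : ℕ} (e : A ↪ Fin N) (w : A) : pinv e (e w) = some w := by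
  classical
  unfold pinv
  have h : ∃ w', e w' = e w := ⟨w, rfl⟩
  simp only [dif_pos h]
  exact congrArg some (e.injective h.choose_spec)

/-- extension of an assignment by `false` -/
noncomputable def up {A : Type} {N : ℕ} (e : A ↪ Fin N) (z : A → Bool) (v : Fin N) : Bool :=
  match pinv e v with
  | some w => z w
  | none => false

theorem up_apply {A : Type} {N : ℕ} (e : A ↪ Fin N) (z : A → Bool) (w : A) :
    up e z (e w) = z w := by
  unfold up
  rw [pinv_apply]

/-- negation normal form over `A`, the variables outside `A` being set to `false` -/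
noncomputable def conv {A : Type} {N : ℕ} (e : A ↪ Fin N) (s : Bool) : Fml N → T A ⊕ Bool
  | .const b => .inr (b == s)
  | .var v => match pinv e v with
    | some w => .inl (.lit w s)
    | none => .inr (false == s)
  | .neg f => conv e (!s) f
  | .and f g => comb s (conv e s f) (conv e s g)
  | .or f g => comb (!s) (conv e s f) (conv e s g)

theorem evs_conv {A : Type} {N : ℕ} (e : A ↪ Fin N) (z : A → Bool) (s : Bool)
    (f : Fml N) : evs z (conv e s f) = (f.eval (up e z) == s) := by
  induction f generalizing s with
  | const b => rfl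
  | var v =>
    simp only [conv, Fml.eval, up]
    cases pinv e v with
    | some w => rfl
    | none => rfl
  | neg f ih =>
    simp only [conv, Fml.eval, ih]
    cases f.eval (up e z) <;> cases s <;> rfl
  | and f g ihf ihg =>
    simp only [conv, Fml.eval, evs_comb, ihf, ihg]
    cases f.eval (up e z) <;> cases g.eval (up e z) <;> cases s <;> rfl
  | or f g ihf ihg =>
    simp only [conv, Fml.eval, evs_comb, ihf, ihg]
    cases f.eval (up e z) <;> cases g.eval (up e z) <;> cases s <;> rfl

theorem leavess_conv {A : Type} {N : ℕ} (e : A ↪ Fin N) (s : Bool) (f : Fml N) :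
    leavess (conv e s f) ≤ f.size := by
  induction f generalizing s with
  | const b => simp [conv, leavess]
  | var v =>
    simp only [conv, Fml.size]
    cases pinv e v with
    | some w => exact le_rfl
    | none => exact Nat.zero_le _
  | neg f ih => exact ih (!s)
  | and f g ihf ihg =>
    exact (leavess_comb _ _ _).trans (add_le_add (ihf s) (ihg s))
  | or f g ihf ihg =>
    exact (leavess_comb _ _ _).trans (add_le_add (ihf s) (ihg s))

theorem mono_mul {K : Type} [Field K] {n : ℕ} (S T : Finset (Fin n)) : mono K S * mono K T = mono K (S ∪ T) := by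
  funext x
  simp only [mono, Pi.mul_apply]
  by_cases h1 : ∀ i ∈ S, x i = true
  · by_cases h2 : ∀ i ∈ T, x i = true
    · rw [if_pos h1, if_pos h2, if_pos, mul_one]
      intro i hi
      rcases mem_union.mp hi with h | h
      · exact h1 i h
      · exact h2 i h
    · rw [if_neg h2, mul_zero, if_neg (fun h : ∀ i ∈ S ∪ T, x i = true =>
        h2 fun i hi => h i (mem_union_right _ hi))]
  · rw [if_neg h1, zero_mul, if_neg (fun h : ∀ i ∈ S ∪ T, x i = true =>
      h1 fun i hi => h i (mem_union_left _ hi))]

theorem mono_mem {K : Type} [Field K] {n d : ℕ} (S : Finset (Fin n)) (h : S.card ≤ d) : mono K S ∈ Deg K n d :=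
  Submodule.subset_span ⟨S, h, rfl⟩

theorem one_mem {K : Type} [Field K] {n d : ℕ} : (1 : (Fin n → Bool) → K) ∈ Deg K n d := by
  have h : (1 : (Fin n → Bool) → K) = mono K ∅ := by
    funext x
    simp [mono]
  rw [h]
  exact mono_mem _ (by simp)

theorem Deg_mono {K : Type} [Field K] {n d d' : ℕ} (h : d ≤ d') : Deg K n d ≤ Deg K n d' := by
  unfold Deg
  apply Submodule.span_mono
  rintro _ ⟨S, hS, rfl⟩
  exact ⟨S, hS.trans h, rfl⟩

theorem Deg_mul {K : Type} [Field K] {n a b : ℕ} {f g : (Fin n → Bool) → K} (hf : f ∈ Deg K n a)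
    (hg : g ∈ Deg K n b) : f * g ∈ Deg K n (a + b) := by
  have h1 : f * g ∈ (Deg K n a) * (Deg K n b) := Submodule.mul_mem_mul hf hg
  have h2 : (Deg K n a) * (Deg K n b) ≤ Deg K n (a + b) := by
    unfold Deg
    rw [Submodule.span_mul_span]
    apply Submodule.span_mono
    rintro _ ⟨_, ⟨S, hS, rfl⟩, _, ⟨T, hT, rfl⟩, rfl⟩
    exact ⟨S ∪ T, (card_union_le _ _).trans (by omega), mono_mul S T⟩
  exact h2 h1

theorem Deg_prod {K : Type} [Field K] {n d : ℕ} {κ : Type} (s : Finset κ) (f : κ → (Fin n → Bool) → K)
    (h : ∀ i ∈ s, f i ∈ Deg K n d) : (∏ i ∈ s, f i) ∈ Deg K n (s.card * d) := by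
  classical
  induction s using Finset.induction_on with
  | empty => simpa using one_mem
  | insert a s ha ih =>
    rw [Finset.prod_insert ha, card_insert_of_notMem ha, add_mul, one_mul, add_comm]
    exact Deg_mul (h a (mem_insert_self _ _)) (ih (fun i hi => h i (mem_insert_of_mem hi)))

/-- degree in the sense of juntas -/
theorem J_le_Deg {K : Type} [Field K] {n w : ℕ} :
    J (ι := Fin n) (α := Bool) K w ≤ Deg K n w := by
  classical
  unfold J
  rw [Submodule.span_le]
  rintro g ⟨B, hB, hg⟩
  have h1 : g = ∑ T ∈ B.powerset, g (fun i => decide (i ∈ T)) •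
      ∏ i ∈ B, (if i ∈ T then mono K {i} else 1 - mono K {i}) := by
    funext x
    rw [Finset.sum_apply, Finset.sum_eq_single (B.filter fun i => x i = true)]
    · rw [Pi.smul_apply, Finset.prod_apply, Finset.prod_eq_one, smul_eq_mul, mul_one]
      · apply hg
        intro i hi
        have hi' : i ∈ B := hi
        cases hx : x i <;> simp [hi', hx]
      · intro i hi
        cases hx : x i <;> simp [hi, hx, mono]
    · intro T hT hne
      rw [mem_powerset] at hT
      rw [Pi.smul_apply, Finset.prod_apply]
      obtain ⟨i, hi, hii⟩ : ∃ i ∈ B, ¬ (i ∈ T ↔ x i = true) := by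
        by_contra hcon
        push Not at hcon
        apply hne
        ext i
        rw [mem_filter]
        constructor
        · intro h; exact ⟨hT h, (hcon i (hT h)).mp h⟩
        · rintro ⟨h, h'⟩; exact (hcon i h).mpr h'
      rw [Finset.prod_eq_zero hi, smul_zero]
      by_cases hiT : i ∈ T
      · have hx : x i = false := by
          cases h : x i
          · rfl
          · exact absurd (by simp [hiT, h]) hii
        simp [hiT, hx, mono]
      · have hx : x i = true := by
          cases h : x i
          · exact absurd (by simp [hiT, h]) hii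
          · rfl
        simp [hiT, hx, mono]
    · intro h
      exact absurd (mem_powerset.mpr (filter_subset _ _)) h
  rw [h1]
  refine Submodule.sum_mem _ (fun T _ => Submodule.smul_mem _ _ ?_)
  have h2 := Deg_prod (K := K) (n := n) (d := 1) B
    (fun i => if i ∈ T then mono K {i} else 1 - mono K {i}) (by
      intro i _
      have h3 : mono K {i} ∈ Deg K n 1 := mono_mem _ (by simp)
      by_cases hi : i ∈ T
      · simp only [if_pos hi]
        exact h3
      · simp only [if_neg hi]
        exact Submodule.sub_mem _ one_mem h3)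
  rw [mul_one] at h2
  exact Deg_mono hB h2

theorem falsity_mem {K : Type} [Field K] {n w : ℕ} (C : Clause n) (h : C.card ≤ w) :
    falsity K C ∈ Deg K n w := by
  apply J_le_Deg
  refine junta_mem (C.image Prod.fst) (card_image_le.trans h) ?_
  intro x y hxy
  unfold falsity
  have h1 : (∀ l ∈ C, x l.1 ≠ l.2) ↔ (∀ l ∈ C, y l.1 ≠ l.2) := by
    constructor
    · intro h l hl
      rw [← hxy l.1 (mem_coe.mpr (mem_image_of_mem _ hl))]
      exact h l hl
    · intro h l hl
      rw [hxy l.1 (mem_coe.mpr (mem_image_of_mem _ hl))]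
      exact h l hl
  simp only [h1]

theorem PC_mono_mul {K : Type} [Field K] {n : ℕ} {F : Finset (Clause n)} {D d : ℕ} {f : (Fin n → Bool) → K}
    (hf : PC K F D f) (hd : f ∈ Deg K n d) (S : Finset (Fin n)) :
    d + S.card ≤ D → PC K F D (mono K S * f) ∧ mono K S * f ∈ Deg K n (d + S.card) := by
  induction S using Finset.induction_on with
  | empty =>
    intro _
    have h : mono K (∅ : Finset (Fin n)) * f = f := by
      funext x
      simp [mono]
    rw [h]
    exact ⟨hf, by simpa using hd⟩
  | insert i S hi ih =>
    intro hD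
    rw [card_insert_of_notMem hi] at hD
    obtain ⟨h1, h2⟩ := ih (by omega)
    have h3 : mono K (insert i S) * f = mono K {i} * (mono K S * f) := by
      rw [← mul_assoc, mono_mul]
      rfl
    rw [h3, card_insert_of_notMem hi]
    refine ⟨PC.mul i h1 h2 (by omega), ?_⟩
    have h4 := Deg_mul (mono_mem (K := K) (d := 1) ({i} : Finset (Fin n)) (by simp)) h2
    exact Deg_mono (by omega) h4

theorem PC_mul {K : Type} [Field K] {n : ℕ} {F : Finset (Clause n)} {D d e : ℕ} {f u : (Fin n → Bool) → K}
    (hf : PC K F D f) (hd : f ∈ Deg K n d) (hu : u ∈ Deg K n e) (hD : d + e ≤ D) :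
    PC K F D (u * f) := by
  unfold Deg at hu
  induction hu using Submodule.span_induction with
  | mem u hu =>
    obtain ⟨S, hS, rfl⟩ := hu
    exact (PC_mono_mul hf hd S (by omega)).1
  | zero =>
    rw [zero_mul]
    exact PC.zero
  | add u v _ _ h1 h2 =>
    rw [add_mul]
    exact PC.add h1 h2
  | smul c u _ h1 =>
    rw [smul_mul_assoc]
    exact PC.smul c h1

/-- For all `γ, ε > 0` there are `δ, η > 0` such that for all large `N` there are an `n` with
`N ^ η ≤ n + 1` and gadgets `G` for `n` variables over `N` variables, decision trees of depth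
`O(log N)`, such that for every CNF `F` with `n` variables whose clauses have at most `w`
literals and which has no refutation of degree `W ≥ n ^ γ + w` in the Positivstellensatz calculus,
every refutation of the composition `F ∘ G` in the Positivstellensatz calculus with formulas of
size at most `N ^ (2 - ε)` in place of monomials contains at least `exp (N ^ δ)` formulas. -/
theorem result (γ ε : ℝ) (hγ : 0 < γ) (hε : 0 < ε) :
    ∃ (δ η : ℝ) (N0 : ℕ), 0 < δ ∧ 0 < η ∧ ∀ N ≥ N0,
      ∃ (n : ℕ) (G : Fin n → (Fin N → Bool) → Bool), (N : ℝ) ^ η ≤ n + 1 ∧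
        IsGadget G (2 * Nat.log 2 N + 3) ∧
        ∀ (F : Finset (Clause n)) (w W : ℕ), (∀ C ∈ F, C.card ≤ w) →
          (n : ℝ) ^ γ + w ≤ W → ¬ SquaresRef F W →
          ∀ s S : ℕ, (s : ℝ) ≤ (N : ℝ) ^ (2 - ε) →
            ∀ ref : Refutation F G s S, Real.exp ((N : ℝ) ^ δ) ≤ ref.fmls.card := by
  classical
  -- exponents
  obtain ⟨L, hL⟩ : ∃ L, L = max 24 (18 / γ) := ⟨_, rfl⟩
  have hL24 : (24 : ℝ) ≤ L := by rw [hL]; exact le_max_left _ _
  have hLγ : 18 ≤ L * γ := by
    have h1 : 18 / γ ≤ L := by rw [hL]; exact le_max_right _ _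
    rwa [div_le_iff₀ hγ] at h1
  obtain ⟨x, hx⟩ : ∃ x, x = min ε (1 / 2) / (2 * L + 16) := ⟨_, rfl⟩
  have hmin : 0 < min ε (1 / 2) := lt_min hε (by norm_num)
  have hL16 : 0 < 2 * L + 16 := by linarith
  have hx0 : 0 < x := by rw [hx]; positivity
  have hxe : (2 * L + 16) * x = min ε (1 / 2) := by
    rw [hx]
    field_simp
  have hx1 : (2 * L + 16) * x ≤ 1 / 2 := by
    rw [hxe]
    exact min_le_right ε (1 / 2)
  have hxε : (2 * L + 16) * x ≤ ε := by
    rw [hxe]
    exact min_le_left ε (1 / 2)
  obtain ⟨N0, hnum⟩ := NumL.numL 1 1 L γ x (by omega) hL24 hγ hLγ hx0 hx1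
  refine ⟨x, L * x, max N0 1, hx0, by positivity, fun N hN => ?_⟩
  have hN1 : 1 ≤ N := (le_max_right _ _).trans hN
  have hN1' : (1 : ℝ) ≤ N := by exact_mod_cast hN1
  obtain ⟨n, kk, κ, s0, d, mm, t, hn, hk, hsum, hκ, hs0, ht, htk, hsT, hcount, hfan,
    hSr⟩ := hnum N ((le_max_left _ _).trans hN)
  let A := Vd n kk κ
  have hA : Fintype.card A ≤ N := by
    simp only [A, Fintype.card_sum, Fintype.card_prod, Fintype.card_fin]
    refine le_trans ?_ hsum
    nlinarith [Nat.zero_le (n * kk), Nat.zero_le (n * κ)]
  obtain ⟨e⟩ : Nonempty (A ↪ Fin N) :=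
    Function.Embedding.nonempty_of_card_le (by rw [Fintype.card_fin]; exact hA)
  obtain ⟨h, hD4⟩ := core3D2 P1.proof_P1 (n := n) (k := kk) (κ := κ) hk d ht htk hsT mm
    (Real.exp (-(N : ℝ) ^ (2 * x))) (Real.exp_pos _)
    (by
      refine lt_of_le_of_lt ?_ hcount
      rw [Fintype.card_fun, Fintype.card_fin, Fintype.card_option, Fintype.card_sum,
        Fintype.card_prod, Fintype.card_bool, Fintype.card_fun,
        Fintype.card_bool, Fintype.card_fin, Fintype.card_fin]
      have e1 : (n : ℝ) ≤ 2 * n * (1 : ℕ) := by
        push_cast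
        have : (0 : ℝ) ≤ n := by positivity
        linarith
      have hX0 : (0 : ℝ) ≤ (192 - 1) * mm / 2 ^ κ := by
        apply div_nonneg _ (by positivity)
        norm_num
      push_cast at e1 ⊢
      apply mul_le_mul
      · apply pow_le_pow_left₀ (by positivity)
        have h1 : (Fintype.card A : ℝ) ≤ N := by exact_mod_cast hA
        have h2 : (Fintype.card (Vd n kk κ) : ℝ) ≤ N := h1
        rw [Fintype.card_sum] at h2
        push_cast at h2
        linarith
      · apply pow_le_pow_left₀ (by positivity)
        apply mul_le_mul_of_nonneg_left _ (by positivity)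
        apply Real.exp_le_exp.mpr
        exact mul_le_mul_of_nonneg_right e1 hX0
      · positivity
      · positivity)
  refine ⟨n, fun i z => cvd h (fun v => z (e v)) i, hn, ⟨?_, ?_⟩, ?_⟩
  · -- certificates
    refine ⟨fun i => univ.filter (fun v => ∃ a : A, e a = v ∧
      Sum.elim (fun b : Fin n × Fin kk => b.1)
        (fun b : Fin n × Fin κ => b.1) a = i), ?_, ?_⟩
    · intro i j hij
      rw [Finset.disjoint_left]
      intro v hv hv'
      rw [mem_filter] at hv hv'
      obtain ⟨_, a, ha, hai⟩ := hv
      obtain ⟨_, a', ha', haj⟩ := hv'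
      have : a = a' := e.injective (ha.trans ha'.symm)
      subst this
      exact hij (hai.symm.trans haj)
    · intro i
      have h1 := DTr.cell (κ := κ) (d := 0) (A := univ.filter (fun v => ∃ a : A, e a = v ∧
        Sum.elim (fun b : Fin n × Fin kk => b.1) (fun b : Fin n × Fin κ => b.1) a = i))
        (fun p => e (.inl (i, h i p))) (fun c => e (.inr (i, c)))
        (fun p => by rw [mem_filter]; exact ⟨mem_univ _, _, rfl, rfl⟩)
        (fun c => by rw [mem_filter]; exact ⟨mem_univ _, _, rfl, rfl⟩) _ _ (DT.const 0 true)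
        (DT.const 0 false)
      have h2 : 2 * Nat.log 2 N + 3 = 0 + (κ + 1) := by omega
      rw [h2]
      have h3 : (fun z : Fin N → Bool => if z (e (.inl (i, h i (fun c => z (e (.inr (i, c)))))))
          = true then true else false) = (fun z => cvd h (fun v => z (e v)) i) := by
        funext z
        simp only [cvd]
        cases z (e (.inl (i, h i (fun c => z (e (.inr (i, c))))))) <;> rfl
      rw [h3] at h1
      exact h1
  · -- all values
    intro y
    refine ⟨up e (Sum.elim (fun b => y b.1) (fun _ => false)), fun i => ?_⟩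
    simp only [cvd, up_apply, Sum.elim_inl]
  · intro F w W hw hW hF s S hs ref
    by_contra hcon
    push Not at hcon
    obtain ⟨L, hL1, hL2⟩ := ref.final
    have hs' : s ≤ s0 := by
      apply hs0
      refine hs.trans ?_
      apply Real.rpow_le_rpow_of_exponent_le hN1'
      linarith
    have hx1' : (1 : ℝ) ≤ (N : ℝ) ^ x := Real.one_le_rpow hN1' hx0.le
    obtain ⟨Z, hZc, hZ⟩ := hD4 {φ // φ ∈ ref.fmls}
      (fun φ => conv e true φ.1)
      (fun φ => (leavess_conv e _ _).trans ((ref.size_le _ φ.2).trans hs'))
      (by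
        have h1 := hSr 1 (ref.fmls.card : ℝ) (by positivity) (by simpa using hx1') hcon
        rw [Fintype.card_coe]
        push_cast at h1
        rw [mul_one] at h1
        exact h1)
    have hf := hfan 0 1 0 (by push_cast; linarith) (by push_cast; linarith)
      (by push_cast; linarith)
    have hbound : 2 * d + w ≤ W := by
      have hd : 2 * d ≤ 5 * d ^ 4 := by
        rcases Nat.eq_zero_or_pos d with h | h
        · simp [h]
        · have h1 : d ≤ d ^ 4 := by
            calc d = d ^ 1 := (pow_one d).symm
              _ ≤ d ^ 4 := Nat.pow_le_pow_right h (by norm_num)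
          omega
      have hd' : (2 : ℝ) * d ≤ 5 * (d : ℝ) ^ 4 := by exact_mod_cast hd
      have h3 : ((2 * d + w : ℕ) : ℝ) ≤ (W : ℝ) := by
        push_cast at hf ⊢
        linarith
      exact_mod_cast h3
    -- the restriction of functions
    let R : ((Fin N → Bool) → ℝ) →ₗ[ℝ] ((Fin n → Bool) → ℝ) :=
      { toFun := fun f y => f (up e (Z y)), map_add' := fun _ _ => rfl,
        map_smul' := fun _ _ => rfl }
    have hRmul : ∀ f g, R (f * g) = R f * R g := fun _ _ => rfl
    have hRind : ∀ φ ∈ ref.fmls, R (ind ℝ φ) ∈ Deg ℝ n d := by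
      intro φ hφ
      have h1 := J_le_Deg (hZ ℝ ⟨φ, hφ⟩)
      have h2 : toK ℝ (fun y => evs (Z y) (conv e true φ)) = R (ind ℝ φ) := by
        funext y
        show (if evs (Z y) (conv e true φ) = true then (1 : ℝ) else 0) =
          if φ.eval (up e (Z y)) = true then 1 else 0
        rw [evs_conv]
        cases φ.eval (up e (Z y)) <;> simp
      rw [h2] at h1
      exact h1
    have hRline : ∀ j, R (ref.line j) ∈ Deg ℝ n d := by
      intro j
      have h1 : Submodule.span ℝ {f | ∃ φ ∈ ref.fmls, f = ind ℝ φ} ≤ (Deg ℝ n d).comap R := by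
        rw [Submodule.span_le]
        rintro f ⟨φ, hφ, rfl⟩
        exact hRind φ hφ
      exact h1 (ref.line_mem j)
    have hRcl : ∀ C : Clause n, R (fun z => falsity ℝ C
        (fun i => cvd h (fun v => z (e v)) i)) = falsity ℝ C := by
      intro C
      funext y
      show falsity ℝ C (fun i => cvd h (fun v => up e (Z y) (e v)) i) = falsity ℝ C y
      have h1 : (fun v => up e (Z y) (e v)) = Z y := by
        funext v
        exact up_apply e (Z y) v
      rw [h1]
      exact congrArg (falsity ℝ C) (hZc y)
    -- the derivable polynomials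
    let P : Submodule ℝ ((Fin n → Bool) → ℝ) :=
      { carrier := {f | PC ℝ F W f}, add_mem' := fun h1 h2 => PC.add h1 h2, zero_mem' := PC.zero,
        smul_mem' := fun c _ h1 => PC.smul c h1 }
    have key : ∀ m : ℕ, ∀ j : Fin S, j.1 = m → PC ℝ F W (R (ref.line j)) := by
      intro m
      induction m using Nat.strong_induction_on with
      | _ m ih =>
        intro j hj
        have h1 : Submodule.span ℝ {f | ∃ φ ∈ ref.fmls, (∃ i < j, f = ind ℝ φ * ref.line i) ∨
            ∃ C ∈ F, f = ind ℝ φ * fun z => falsity ℝ C
              (fun i => cvd h (fun v => z (e v)) i)} ≤ P.comap R := by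
          rw [Submodule.span_le]
          rintro f ⟨φ, hφ, ⟨i, hi, rfl⟩ | ⟨C, hC, rfl⟩⟩
          · show PC ℝ F W (R (ind ℝ φ * ref.line i))
            rw [hRmul]
            exact PC_mul (ih i.1 (by rw [← hj]; exact hi) i rfl) (hRline i) (hRind φ hφ)
              (by omega)
          · show PC ℝ F W (R (ind ℝ φ * fun z => falsity ℝ C
              (fun i => cvd h (fun v => z (e v)) i)))
            rw [hRmul, hRcl]
            exact PC_mul (PC.clause hC) (falsity_mem C (hw C hC)) (hRind φ hφ) (by omega)
        exact h1 (ref.sound j)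
    apply hF
    have h1 : Submodule.span ℝ {f | ∃ φ ∈ ref.fmls, (∃ i, f = ind ℝ φ * ref.line i) ∨
        ∃ C ∈ F, f = ind ℝ φ * fun z => falsity ℝ C
          (fun i => cvd h (fun v => z (e v)) i)} ≤ P.comap R := by
      rw [Submodule.span_le]
      rintro f ⟨φ, hφ, ⟨i, rfl⟩ | ⟨C, hC, rfl⟩⟩
      · show PC ℝ F W (R (ind ℝ φ * ref.line i))
        rw [hRmul]
        exact PC_mul (key i.1 i rfl) (hRline i) (hRind φ hφ) (by omega)
      · show PC ℝ F W (R (ind ℝ φ * fun z => falsity ℝ C
          (fun i => cvd h (fun v => z (e v)) i)))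
        rw [hRmul, hRcl]
        exact PC_mul (PC.clause hC) (falsity_mem C (hw C hC)) (hRind φ hφ) (by omega)
    have h2 : PC ℝ F W (R (1 + (L.map fun q => q * q).sum)) := h1 hL2
    have h3 : ∀ L' : List ((Fin N → Bool) → ℝ), R ((L'.map fun q => q * q).sum) =
        ((L'.map R).map fun q => q * q).sum := by
      intro L'
      induction L' with
      | nil => rfl
      | cons a L' ih =>
        simp only [List.map_cons, List.sum_cons, map_add, ih, hRmul]
    have h4 : R 1 = 1 := rfl
    rw [map_add, h3, h4] at h2
    refine ⟨L.map R, ?_, h2⟩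
    intro q hq
    obtain ⟨q', hq', rfl⟩ := List.mem_map.mp hq
    have h5 : Submodule.span ℝ {f | ∃ φ ∈ ref.fmls, f = ind ℝ φ} ≤ (Deg ℝ n d).comap R := by
      rw [Submodule.span_le]
      rintro f ⟨φ, hφ, rfl⟩
      exact hRind φ hφ
    exact Deg_mono (by omega) (h5 (hL1 q' hq'))

end Pool.Agent.Results.MP_51bb46_lc.FormulaSquares
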