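import Pool.Agent.Helper600R2.Sharp.Lower

/-!
The exact order of the line size at which refutations of lifted Tseitin systems become short:
lines with `c m N` variable occurrences need exponentially many lines, lines with `32 m N`
occurrences need `2 n` lines.
-/

namespace Pool.Agent.Results.MP_51bb46_lc.LineSizeThreshold

open Finset Pool.Agent.Helper600R2.Sharp

/-- For every `k` there are `c > 0` and `n₀` such that for all `n ≥ n₀`, `m ≥ 1` and `r ≥ 1` there
is an unsatisfiable system of `n` parity constraints on at most `4 m` of the `N = 2 n m` variables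
each with the following properties.  Every refutation all of whose `T` lines are Boolean functions
of `r` formulas with at most `c m N / r` occurrences of variables satisfies `r T ≥ 2 ^ (c n / r)`.
If `k ≥ 2`, there is a refutation with `2 n` lines which are formulas with at most `32 m N`
occurrences of variables. -/
theorem result (k : ℕ) : ∃ c : ℝ, 0 < c ∧ ∃ n₀ : ℕ, ∀ n m r : ℕ, n₀ ≤ n → 1 ≤ m → 1 ≤ r →
    ∃ (S : Fin n → Finset (Fin (2 * n * m))) (b : Fin n → Bool),
      (∀ v, (S v).card ≤ 4 * m) ∧ (¬ ∃ x, ∀ v, XorHolds (S v) (b v) x) ∧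
      (∀ (T : ℕ) (l : Fin T → Line r (Fin (2 * n * m))), IsRefutation S b k l →
        (∀ i, (l i).SizeLe (c * m * (2 * n * m) / r)) → (2 : ℝ) ^ (c * n / r) ≤ r * T) ∧
      (2 ≤ k → ∃ l : Fin (2 * n) → Line r (Fin (2 * n * m)), IsRefutation S b k l ∧
        ∀ i, (l i).SizeLe (32 * m * (2 * n * m))) :=
  threshold k

end Pool.Agent.Results.MP_51bb46_lc.LineSizeThreshold
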