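import Mathlib
import Pool.Agent.H542R2.GN.All

/-!
Local proof complexity generators with arbitrary nonlinear parts are exponentially hard for all
refutations whose lines are arbitrary formulas of linear size and whose inferences are arbitrary
sound inferences of bounded fan-in.
-/

namespace Pool.Agent.Results.MP_51bb46_lc.LocalGenerators

/-- Propositional formulas over the variables `V`, of unbounded depth. -/
inductive Fml (V : Type) : Type
  | const : Bool → Fml V
  | var : V → Fml V
  | neg : Fml V → Fml V
  | and : Fml V → Fml V → Fml V
  | or : Fml V → Fml V → Fml V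

/-- Truth value of a formula. -/
def Fml.eval {V : Type} (z : V → Bool) : Fml V → Bool
  | .const b => b
  | .var v => z v
  | .neg f => !(f.eval z)
  | .and f g => f.eval z && g.eval z
  | .or f g => f.eval z || g.eval z

/-- Size of a formula: the number of occurrences of variables. -/
def Fml.size {V : Type} : Fml V → ℕ
  | .const _ => 0
  | .var _ => 1
  | .neg f => f.size
  | .and f g => f.size + g.size
  | .or f g => f.size + g.size

/-- The parity of the bits of `z` in the set `A`. -/
def parity {N : ℕ} (A : Finset (Fin N)) (z : Fin N → Bool) : Bool :=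
  decide (Odd (A.filter fun x => z x = true).card)

/-- The generator `{0,1}^N → {0,1}^m` whose output bit `r` is the parity of the input bits in
`A r` plus (modulo 2) the value of the Boolean function `f r`. -/
def gen {N m : ℕ} (A : Fin m → Finset (Fin N)) (f : Fin m → (Fin N → Bool) → Bool)
    (z : Fin N → Bool) (r : Fin m) : Bool :=
  xor (parity (A r) z) (f r z)

/-- A refutation of the system of equations `gen A f z r = y r`, `r < m`, in the variables `z`
(a proof that `y` is not in the range of the generator) with `S` lines, each of which is a
formula of size at most `s`.  Every line is implied by one of the equations or by at most `a`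
earlier lines, and some line is unsatisfiable. -/
structure Refutation {N m : ℕ} (A : Fin m → Finset (Fin N)) (f : Fin m → (Fin N → Bool) → Bool)
    (y : Fin m → Bool) (a s S : ℕ) where
  line : Fin S → Fml (Fin N)
  size_le : ∀ j, (line j).size ≤ s
  sound : ∀ j, (∃ r, ∀ z, gen A f z r = y r → (line j).eval z = true) ∨
    ∃ P : Finset (Fin S), P.card ≤ a ∧ (∀ p ∈ P, p < j) ∧
      ∀ z, (∀ p ∈ P, (line p).eval z = true) → (line j).eval z = true
  final : ∃ j, ∀ z, (line j).eval z = false

open H542 Finset

/-- negation normal form, constants eliminated; the flag `s` is the sign -/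
def conv {V : Type} (s : Bool) : Fml V → T V ⊕ Bool
  | .const b => .inr (b == s)
  | .var v => .inl (.lit v s)
  | .neg f => conv (!s) f
  | .and f g => comb s (conv s f) (conv s g)
  | .or f g => comb (!s) (conv s f) (conv s g)

theorem evs_conv {V : Type} (z : V → Bool) (s : Bool) (f : Fml V) :
    evs z (conv s f) = (f.eval z == s) := by
  induction f generalizing s with
  | const b => rfl
  | var v => rfl
  | neg f ih =>
    simp only [conv, Fml.eval, ih]
    cases f.eval z <;> cases s <;> rfl
  | and f g ihf ihg =>
    simp only [conv, Fml.eval, evs_comb, ihf, ihg]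
    cases f.eval z <;> cases g.eval z <;> cases s <;> rfl
  | or f g ihf ihg =>
    simp only [conv, Fml.eval, evs_comb, ihf, ihg]
    cases f.eval z <;> cases g.eval z <;> cases s <;> rfl

theorem leavess_conv {V : Type} (s : Bool) (f : Fml V) : leavess (conv s f) ≤ f.size := by
  induction f generalizing s with
  | const b => simp [conv, leavess]
  | var v => simp [conv, leavess, T.leaves, Fml.size]
  | neg f ih => exact ih (!s)
  | and f g ihf ihg =>
    exact (leavess_comb _ _ _).trans (add_le_add (ihf s) (ihg s))
  | or f g ihf ihg =>
    exact (leavess_comb _ _ _).trans (add_le_add (ihf s) (ihg s))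

/-- For all `a`, `C`, `K`, `q` there are a locality `k` and a constant `c > 0` such that for all
large `N` there are disjoint sets `A r`, `B r` of input bits, `r < K * N`, with
`|A r| + |B r| ≤ k` and `q * |A r| ≤ |B r|`, such that for ALL functions `f r` of the bits in
`B r` the generator `gen A f : {0,1}^N → {0,1}^(K * N)` has the following property.  At most
`2 ^ N` strings are in its range, but for EVERY string `y`, every refutation of `gen A f z = y`
whose lines are formulas of size at most `C * N`, with inferences of fan-in `a`, has at least
`2 ^ (c * N)` lines. -/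
theorem result (a C K q : ℕ) : ∃ (k : ℕ) (c : ℝ), 0 < c ∧ ∃ N0 : ℕ, ∀ N ≥ N0,
    ∃ A B : Fin (K * N) → Finset (Fin N),
      (∀ r, Disjoint (A r) (B r)) ∧ (∀ r, (A r).card + (B r).card ≤ k) ∧
      (∀ r, q * (A r).card ≤ (B r).card) ∧
      ∀ f : Fin (K * N) → (Fin N → Bool) → Bool,
        (∀ r z z', (∀ x ∈ B r, z x = z' x) → f r z = f r z') →
          {y : Fin (K * N) → Bool | ∃ z, gen A f z = y}.ncard ≤ 2 ^ N ∧
          ∀ (y : Fin (K * N) → Bool) (S : ℕ),
            Nonempty (Refutation A f y a (C * N) S) → (2 : ℝ) ^ (c * N) ≤ S := by
  classical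
  obtain ⟨k, c, hc, N0, h⟩ := GN.main_gn GN.g_loc GN.g_bex GN.g_flip GN.g_exp a C K q
  refine ⟨k, c, hc, N0, fun N hN => ?_⟩
  obtain ⟨A, B, hAB, hk, hq, hmain⟩ := h N hN
  refine ⟨A, B, hAB, hk, hq, fun f hf => ⟨?_, fun y S => ?_⟩⟩
  · have h1 : {y : Fin (K * N) → Bool | ∃ z, gen A f z = y} = Set.range (gen A f) := rfl
    rw [h1, ← Set.image_univ]
    refine (Set.ncard_image_le Set.finite_univ).trans ?_
    rw [Set.ncard_univ]
    simp
  · rintro ⟨π⟩
    by_contra hS
    push Not at hS
    obtain ⟨j, hj⟩ := π.final
    obtain ⟨z, hz⟩ := hmain f hf y S (fun j => conv true (π.line j)) hS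
      (fun j => (leavess_conv _ _).trans (π.size_le j)) (by
        intro j
        rcases π.sound j with ⟨r, hr⟩ | ⟨P, hP1, hP2, hP3⟩
        · left
          refine ⟨r, fun z hz => ?_⟩
          rw [evs_conv, hr z hz]
          rfl
        · right
          refine ⟨P, hP1, hP2, fun z hz => ?_⟩
          have h1 : ∀ p ∈ P, (π.line p).eval z = true := by
            intro p hp
            have := hz p hp
            rw [evs_conv] at this
            simpa using this
          rw [evs_conv, hP3 z h1]
          rfl) j
    rw [evs_conv, hj z] at hz
    exact absurd hz (by decide)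

end Pool.Agent.Results.MP_51bb46_lc.LocalGenerators
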